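import Pool.Agent.helper48.AGR.Spec

/-!
# Row LIM of MP_def0df_al: the limit automorphism
-/

set_option autoImplicit false

namespace Pool.Agent.AGR

open Monoid Function

theorem LIM (hDL : DL_stmt) : LIM_stmt := by
  intro S m htot
  obtain ⟨Y, gY, ι, hinj, hcomp, hsurj⟩ :=
    hDL (fun n => (S n).X) (fun n => (m n).j) (fun n => (m n).hj)
  let Rn : ℕ → Y → Y → Prop := fun n y y' =>
    ∃ γ : (S n).Γ, ι n ((S n).p γ) = y ∧ ι n ((S n).q γ) = y'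
  have hstep : ∀ n y y', Rn n y y' → Rn (n + 1) y y' := by
    rintro n y y' ⟨γ, h1, h2⟩
    refine ⟨(m n).c γ, ?_, ?_⟩
    · rw [(m n).jp γ, ← h1]
      exact hcomp n _
    · rw [(m n).jq γ, ← h2]
      exact hcomp n _
  have hmono : ∀ n N y y', n ≤ N → Rn n y y' → Rn N y y' := by
    intro n N y y' hnN h
    induction N, hnN using Nat.le_induction with
    | base => exact h
    | succ k _ ih => exact hstep k y y' ih
  have hfun : ∀ n N y y' y'', Rn n y y' → Rn N y y'' → y' = y'' := by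
    intro n N y y' y'' h1 h2
    obtain ⟨γ, h3, h4⟩ := hmono n (max n N) y y' (le_max_left _ _) h1
    obtain ⟨γ', h5, h6⟩ := hmono N (max n N) y y'' (le_max_right _ _) h2
    have h7 : γ = γ' := (S (max n N)).hp (hinj (max n N) (h3.trans h5.symm))
    rw [← h4, ← h6, h7]
  have hinj' : ∀ n N y y' y'', Rn n y y'' → Rn N y' y'' → y = y' := by
    intro n N y y' y'' h1 h2
    obtain ⟨γ, h3, h4⟩ := hmono n (max n N) y y'' (le_max_left _ _) h1
    obtain ⟨γ', h5, h6⟩ := hmono N (max n N) y' y'' (le_max_right _ _) h2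
    have h7 : γ = γ' := (S (max n N)).hq (hinj (max n N) (h4.trans h6.symm))
    rw [← h3, ← h5, h7]
  have hmul : ∀ n N y₁ y₁' y₂ y₂', Rn n y₁ y₁' → Rn N y₂ y₂' →
      Rn (max n N) (y₁ * y₂) (y₁' * y₂') := by
    intro n N y₁ y₁' y₂ y₂' h1 h2
    obtain ⟨γ, h3, h4⟩ := hmono n (max n N) y₁ y₁' (le_max_left _ _) h1
    obtain ⟨γ', h5, h6⟩ := hmono N (max n N) y₂ y₂' (le_max_right _ _) h2
    refine ⟨γ * γ', ?_, ?_⟩
    · rw [map_mul, map_mul, h3, h5]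
    · rw [map_mul, map_mul, h4, h6]
  have hleft : ∀ y, ∃ y' n, Rn n y y' := by
    intro y
    obtain ⟨n, x, hx⟩ := hsurj y
    obtain ⟨⟨γ, hγ⟩, _⟩ := htot n x
    refine ⟨ι (n + 1) ((S (n + 1)).q γ), n + 1, γ, ?_, rfl⟩
    rw [hγ, ← hx]
    exact hcomp n x
  have hright : ∀ y', ∃ y n, Rn n y y' := by
    intro y'
    obtain ⟨n, x, hx⟩ := hsurj y'
    obtain ⟨_, γ, hγ⟩ := htot n x
    refine ⟨ι (n + 1) ((S (n + 1)).p γ), n + 1, γ, rfl, ?_⟩
    rw [hγ, ← hx]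
    exact hcomp n x
  choose F hF using hleft
  have hFmul : ∀ y₁ y₂, F (y₁ * y₂) = F y₁ * F y₂ := by
    intro y₁ y₂
    obtain ⟨n, hn⟩ := hF y₁
    obtain ⟨N, hN⟩ := hF y₂
    obtain ⟨k, hk⟩ := hF (y₁ * y₂)
    exact hfun _ _ _ _ _ hk (hmul n N _ _ _ _ hn hN)
  have hFinj : Injective F := by
    intro y₁ y₂ h
    obtain ⟨n, hn⟩ := hF y₁
    obtain ⟨N, hN⟩ := hF y₂
    rw [← h] at hN
    exact hinj' _ _ _ _ _ hn hN
  have hFsurj : Surjective F := by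
    intro y'
    obtain ⟨y, n, hn⟩ := hright y'
    obtain ⟨N, hN⟩ := hF y
    exact ⟨y, hfun _ _ _ _ _ hN hn⟩
  refine ⟨Y, gY, ι, MulEquiv.ofBijective (MonoidHom.mk' F hFmul) ⟨hFinj, hFsurj⟩, hinj, hcomp,
    hsurj, ?_⟩
  intro n γ
  change F (ι n ((S n).p γ)) = ι n ((S n).q γ)
  obtain ⟨N, hN⟩ := hF (ι n ((S n).p γ))
  exact hfun _ _ _ _ _ hN (⟨γ, rfl, rfl⟩ : Rn n _ _)

end Pool.Agent.AGR
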